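import Pool.Agent.J6H54.CH.Stm2
import Pool.Agent.J6H97.CH.M31a

/-!
# CH-32: adapted norms of a hyperbolic real matrix

Adapted from `Pool/Agent/J6H97/CH/M31.lean` (the integral case, by helper97).
-/

set_option autoImplicit false
set_option maxHeartbeats 1000000

namespace Pool.Agent.J6H77.CH32

open Polynomial Pool.Agent.J6H54.CH Pool.Agent.J6H97.CH31

attribute [local instance] Matrix.linftyOpNormedRing Matrix.linftyOpNormedAlgebra

/-- real vectors as complex vectors -/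
noncomputable def cst {n : ℕ} (x : Fin (n + 1) → ℝ) : Fin (n + 1) → ℂ := fun i => (x i : ℂ)

theorem cst_sub {n : ℕ} (x y : Fin (n + 1) → ℝ) : cst (x - y) = cst x - cst y := by
  funext i
  simp [cst]

theorem cst_add {n : ℕ} (x y : Fin (n + 1) → ℝ) : cst (x + y) = cst x + cst y := by
  funext i
  simp [cst]

theorem cst_neg {n : ℕ} (x : Fin (n + 1) → ℝ) : cst (-x) = -cst x := by
  funext i
  simp [cst]

theorem norm_cst {n : ℕ} (x : Fin (n + 1) → ℝ) : ‖cst x‖ = ‖x‖ := by
  apply le_antisymm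
  · rw [pi_norm_le_iff_of_nonneg (norm_nonneg _)]
    intro i
    have h : ‖cst x i‖ = ‖x i‖ := by
      unfold cst
      exact Complex.norm_real _
    rw [h]
    exact norm_le_pi_norm x i
  · rw [pi_norm_le_iff_of_nonneg (norm_nonneg _)]
    intro i
    have h : ‖cst x i‖ = ‖x i‖ := by
      unfold cst
      exact Complex.norm_real _
    rw [← h]
    exact norm_le_pi_norm (cst x) i

/-- real matrices as complex matrices -/
noncomputable def toC (n : ℕ) : Matrix (Fin (n + 1)) (Fin (n + 1)) ℝ →ₐ[ℝ] MC n :=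
  (Algebra.ofId ℝ ℂ).mapMatrix

theorem toC_mul {n : ℕ} (A : Matrix (Fin (n + 1)) (Fin (n + 1)) ℝ) (x : Fin (n + 1) → ℝ) :
    cst (A.mulVec x) = (toC n A).mulVec (cst x) := by
  funext i
  exact RingHom.map_mulVec Complex.ofRealHom A x i

/-- the spectral decomposition of a hyperbolic matrix -/
theorem decomp {n : ℕ} (Az Bz : Matrix (Fin (n + 1)) (Fin (n + 1)) ℝ) (hAB : Az * Bz = 1)
    (hroot : ∀ μ : ℂ, (Az.charpoly.map (algebraMap ℝ ℂ)).IsRoot μ → ‖μ‖ ≠ 1) :
    ∃ (Pr Qr : Matrix (Fin (n + 1)) (Fin (n + 1)) ℝ) (κ : ℝ) (N N' : ℕ), 0 < κ ∧ κ < 1 ∧ 1 ≤ N ∧ 1 ≤ N' ∧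
      Pr + Qr = 1 ∧ Pr * Qr = 0 ∧ Qr * Pr = 0 ∧
      toC n Pr * toC n Az = toC n Az * toC n Pr ∧
      toC n Qr * toC n Az = toC n Az * toC n Qr ∧
      toC n Pr * toC n Bz = toC n Bz * toC n Pr ∧
      toC n Qr * toC n Bz = toC n Bz * toC n Qr ∧
      ‖(toC n Az * toC n Qr) ^ N‖ ≤ κ ^ N ∧
      ‖(toC n Bz * toC n Pr) ^ N'‖ ≤ κ ^ N' := by
  have hBA : Bz * Az = 1 := mul_eq_one_comm.mp hAB
  set T : MC n := toC n Az with hT
  set T' : MC n := toC n Bz with hT'
  have hTT' : T * T' = 1 := by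
    rw [hT, hT', ← map_mul, hAB, map_one]
  have hT'T : T' * T = 1 := by
    rw [hT, hT', ← map_mul, hBA, map_one]
  set p : ℝ[X] := Az.charpoly with hp
  have hp0 : p ≠ 0 := (Matrix.charpoly_monic Az).ne_zero
  have hpr : ∀ μ : ℂ, aeval μ p = 0 → ‖μ‖ ≠ 1 := by
    intro μ h
    apply hroot μ
    rw [IsRoot.def, eval_map]
    rw [aeval_def] at h
    exact h
  obtain ⟨f, g, hfg, hf, hg⟩ := factor _ p rfl hp0 hpr
  have hcop : IsCoprime f g := by
    rw [isCoprime_iff_aeval_ne_zero_of_isAlgClosed ℝ ℂ]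
    intro μ
    by_contra h
    push Not at h
    have h1 := hf μ h.1
    have h2 := hg μ h.2
    linarith
  obtain ⟨a, b, hab⟩ := hcop
  have hCH : aeval Az (f * g) = 0 := by
    rw [← hfg]
    exact Matrix.aeval_self_charpoly Az
  have hCT : aeval T (f * g) = 0 := by
    rw [hT, aeval_algHom_apply, hCH, map_zero]
  set Pr := aeval Az (a * f) with hPr
  set Qr := aeval Az (b * g) with hQr
  have hPc : toC n Pr = aeval T (a * f) := by rw [hPr, ← aeval_algHom_apply]
  have hQc : toC n Qr = aeval T (b * g) := by rw [hQr, ← aeval_algHom_apply]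
  have h1 : Pr + Qr = 1 := by rw [hPr, hQr, ← map_add, hab, map_one]
  have h2 : Pr * Qr = 0 := by
    rw [hPr, hQr, ← map_mul, show a * f * (b * g) = a * b * (f * g) by ring, map_mul, hCH, mul_zero]
  have h3 : Qr * Pr = 0 := by
    rw [hPr, hQr, ← map_mul, show b * g * (a * f) = a * b * (f * g) by ring, map_mul, hCH, mul_zero]
  have hPP : Pr * Pr = Pr := by
    have : Pr * (Pr + Qr) = Pr := by rw [h1, mul_one]
    rwa [mul_add, h2, add_zero] at this
  have hQQ : Qr * Qr = Qr := by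
    have : Qr * (Pr + Qr) = Qr := by rw [h1, mul_one]
    rwa [mul_add, h3, zero_add] at this
  have hcomm : ∀ q : ℝ[X], aeval T q * T = T * aeval T q := by
    intro q
    have e1 : aeval T (q * X) = aeval T (X * q) := by rw [mul_comm]
    rwa [map_mul, map_mul, aeval_X] at e1
  have hcomm' : ∀ q : ℝ[X], aeval T q * T' = T' * aeval T q := by
    intro q
    calc aeval T q * T' = (T' * T) * aeval T q * T' := by rw [hT'T, one_mul]
      _ = T' * (T * aeval T q) * T' := by rw [mul_assoc T']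
      _ = T' * (aeval T q * T) * T' := by rw [hcomm]
      _ = T' * aeval T q * (T * T') := by simp only [mul_assoc]
      _ = T' * aeval T q := by rw [hTT', mul_one]
  have hPPc : toC n Pr * toC n Pr = toC n Pr := by rw [← map_mul, hPP]
  have hQQc : toC n Qr * toC n Qr = toC n Qr := by rw [← map_mul, hQQ]
  have c1 : toC n Pr * T = T * toC n Pr := by rw [hPc]; exact hcomm _
  have c2 : toC n Qr * T = T * toC n Qr := by rw [hQc]; exact hcomm _
  have c3 : toC n Pr * T' = T' * toC n Pr := by rw [hPc]; exact hcomm' _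
  have c4 : toC n Qr * T' = T' * toC n Qr := by rw [hQc]; exact hcomm' _
  have key : ∀ {μ : ℂ} {v : Fin (n + 1) → ℂ}, v ≠ 0 → T.mulVec v = μ • v →
      aeval μ f = 0 ∨ aeval μ g = 0 := by
    intro μ v hv h
    have e1 := eigen h (f * g)
    rw [hCT, Matrix.zero_mulVec, map_mul] at e1
    have e2 := (smul_eq_zero.mp e1.symm).resolve_right hv
    exact mul_eq_zero.mp e2
  have s1 : ∀ μ ∈ spectrum ℂ (T * toC n Qr), ‖μ‖ < 1 := by
    intro μ hμ
    rcases spec hQQc c2 hμ with rfl | ⟨v, hv, e1, e2⟩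
    · simp
    · rcases key hv e1 with e3 | e3
      · exact hf μ e3
      · exfalso
        rw [hQc, eigen e1, map_mul, e3, mul_zero, zero_smul] at e2
        exact hv e2.symm
  have s2 : ∀ μ ∈ spectrum ℂ (T' * toC n Pr), ‖μ‖ < 1 := by
    intro μ hμ
    rcases spec hPPc c3 hμ with rfl | ⟨v, hv, e1, e2⟩
    · simp
    · have e0 : T.mulVec (T'.mulVec v) = v := by rw [Matrix.mulVec_mulVec, hTT', Matrix.one_mulVec]
      rw [e1, Matrix.mulVec_smul] at e0
      have hμ0 : μ ≠ 0 := by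
        rintro rfl
        rw [zero_smul] at e0
        exact hv e0.symm
      have e4 : T.mulVec v = μ⁻¹ • v := by
        have := congrArg (fun w => μ⁻¹ • w) e0
        simpa [smul_smul, inv_mul_cancel₀ hμ0] using this
      rcases key hv e4 with e3 | e3
      · exfalso
        rw [hPc, eigen e4, map_mul, e3, mul_zero, zero_smul] at e2
        exact hv e2.symm
      · have e5 := hg _ e3
        rw [norm_inv] at e5
        exact (one_lt_inv₀ (norm_pos_iff.mpr hμ0)).mp e5
  obtain ⟨κ1, k1, k2, N1, k3, k4⟩ := pow_small _ s1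
  obtain ⟨κ2, l1, l2, N2, l3, l4⟩ := pow_small _ s2
  refine ⟨Pr, Qr, max κ1 κ2, N1, N2, lt_max_of_lt_left k1, max_lt k2 l2, k3, l3, h1, h2, h3, c1, c2, c3,
    c4, ?_, ?_⟩
  · exact k4.trans (pow_le_pow_left₀ k1.le (le_max_left _ _) _)
  · exact l4.trans (pow_le_pow_left₀ l1.le (le_max_right _ _) _)

theorem m32 : S_arch := by
  intro n B hdet hroot
  rcases n with _ | n
  · refine ⟨fun _ => 0, fun _ => 0, 1 / 2, 1, by norm_num, by norm_num, le_refl _, ?_⟩
    have hz : ∀ x : Fin 0 → ℝ, ‖x‖ = 0 := fun x => by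
      rw [Subsingleton.elim x 0, norm_zero]
    refine ⟨fun _ => le_refl _, fun _ => le_refl _, fun _ => rfl, fun _ => rfl, fun _ _ => by simp,
      fun _ _ => by simp, fun _ => by simp, fun _ => by simp, fun _ => by simp, fun _ => by simp,
      fun x => by rw [hz]; simp, fun x => by rw [hz]; simp, fun x => by rw [hz]; simp,
      fun x y => ⟨0, rfl, rfl⟩⟩
  have hu : IsUnit B.det := isUnit_iff_ne_zero.mpr hdet
  have hAB : B * B⁻¹ = 1 := Matrix.mul_nonsing_inv _ hu
  have hBA : B⁻¹ * B = 1 := Matrix.nonsing_inv_mul _ hu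
  obtain ⟨Pr, Qr, κ, N, N', hκ0, hκ1, hN, hN', h1, h2, h3, c1, c2, c3, c4, n1, n2⟩ :=
    decomp B B⁻¹ hAB hroot
  set T : MC n := toC n B with hT
  set T' : MC n := toC n B⁻¹ with hT'
  set P : MC n := toC n Pr with hP
  set Q : MC n := toC n Qr with hQ
  have hTT' : T * T' = 1 := by
    rw [hT, hT', ← map_mul, hAB, map_one]
  have hT'T : T' * T = 1 := by
    rw [hT, hT', ← map_mul, hBA, map_one]
  have hPQ1 : P + Q = 1 := by rw [hP, hQ, ← map_add, h1, map_one]
  have hPQ : P * Q = 0 := by rw [hP, hQ, ← map_mul, h2, map_zero]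
  have hQP : Q * P = 0 := by rw [hP, hQ, ← map_mul, h3, map_zero]
  have hPP : P * P = P := by
    have : P * (P + Q) = P := by rw [hPQ1, mul_one]
    rwa [mul_add, hPQ, add_zero] at this
  have hQQ : Q * Q = Q := by
    have : Q * (P + Q) = Q := by rw [hPQ1, mul_one]
    rwa [mul_add, hQP, zero_add] at this
  have hs : ∀ x, cst (B.mulVec x) = T.mulVec (cst x) := fun x => toC_mul B x
  have hb : ∀ x, T'.mulVec (T.mulVec (cst x)) = cst x := by
    intro x
    rw [Matrix.mulVec_mulVec, hT'T, Matrix.one_mulVec]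
  have hsum : ∀ v : Fin (n + 1) → ℂ, ‖v‖ ≤ ‖P.mulVec v‖ + ‖Q.mulVec v‖ := by
    intro v
    have e : v = P.mulVec v + Q.mulVec v := by rw [← Matrix.add_mulVec, hPQ1, Matrix.one_mulVec]
    calc ‖v‖ = ‖P.mulVec v + Q.mulVec v‖ := by rw [← e]
      _ ≤ _ := norm_add_le _ _
  set K1 : ℝ := ∑ i ∈ Finset.range N', (κ ^ i)⁻¹ * ‖(T' * P) ^ i * P‖ with hK1
  set K2 : ℝ := ∑ i ∈ Finset.range N, (κ ^ i)⁻¹ * ‖(T * Q) ^ i * Q‖ with hK2
  set M : ℝ := max (max 1 (max ‖T‖ ‖T'‖)) (max K1 K2) with hM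
  have hM1 : 1 ≤ M := (le_max_left _ _).trans (le_max_left _ _)
  have hMT : ‖T‖ ≤ M := (le_max_left _ _).trans ((le_max_right _ _).trans (le_max_left _ _))
  have hMT' : ‖T'‖ ≤ M := (le_max_right _ _).trans ((le_max_right _ _).trans (le_max_left _ _))
  have hMK1 : K1 ≤ M := (le_max_left _ _).trans (le_max_right _ _)
  have hMK2 : K2 ≤ M := (le_max_right _ _).trans (le_max_right _ _)
  have hbd : ∀ x, ‖cst x‖ ≤ nrm (T' * P) P κ N' (cst x) + nrm (T * Q) Q κ N (cst x) := fun x =>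
    (hsum (cst x)).trans (add_le_add (nrm_ge hκ0 hN' _) (nrm_ge hκ0 hN _))
  refine ⟨fun x => nrm (T' * P) P κ N' (cst x), fun x => nrm (T * Q) Q κ N (cst x), κ, M,
    hκ0, hκ1, hM1, fun x => nrm_nonneg hκ0 _, fun x => nrm_nonneg hκ0 _,
    fun x => by simp only [cst_neg, nrm_neg], fun x => by simp only [cst_neg, nrm_neg],
    fun x y => by simp only [cst_add]; exact nrm_add hκ0 _ _,
    fun x y => by simp only [cst_add]; exact nrm_add hκ0 _ _, ?_, ?_, ?_, ?_, ?_, ?_, ?_, ?_⟩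
  · intro x
    have h := nrm_contr (S := T' * P) (Q := P) (T := T') (N := N') hκ0 n2
      (by rw [mul_assoc, hPP, c3]) (T.mulVec (cst x))
    rw [hb] at h
    simpa only [hs] using h
  · intro x
    simp only [hs]
    exact nrm_contr hκ0 n1 (by rw [mul_assoc, hQQ, c2]) _
  · intro x
    simp only [hs]
    refine (nrm_grow hκ0 ?_ c1.symm _).trans ?_
    · rw [← mul_assoc, hTT', one_mul, mul_assoc, c1, ← mul_assoc, hT'T, one_mul]
    · exact mul_le_mul_of_nonneg_right hMT (nrm_nonneg hκ0 _)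
  · intro x
    have h : nrm (T * Q) Q κ N (T'.mulVec (T.mulVec (cst x))) ≤
        ‖T'‖ * nrm (T * Q) Q κ N (T.mulVec (cst x)) := by
      refine nrm_grow hκ0 ?_ c4.symm _
      rw [← mul_assoc, hT'T, one_mul, mul_assoc, c4, ← mul_assoc, hTT', one_mul]
    rw [hb] at h
    simp only [hs]
    exact h.trans (mul_le_mul_of_nonneg_right hMT' (nrm_nonneg hκ0 _))
  · intro x
    have h := hbd x
    rw [norm_cst] at h
    refine h.trans ?_
    exact le_mul_of_one_le_left (add_nonneg (nrm_nonneg hκ0 _) (nrm_nonneg hκ0 _)) hM1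
  · intro x
    have h := nrm_le (S := T' * P) (Q := P) (N := N') hκ0 (cst x)
    rw [norm_cst] at h
    exact h.trans (mul_le_mul_of_nonneg_right hMK1 (norm_nonneg _))
  · intro x
    have h := nrm_le (S := T * Q) (Q := Q) (N := N) hκ0 (cst x)
    rw [norm_cst] at h
    exact h.trans (mul_le_mul_of_nonneg_right hMK2 (norm_nonneg _))
  · intro x y
    have e1 : cst (Pr.mulVec x + Qr.mulVec y) = P.mulVec (cst x) + Q.mulVec (cst y) := by
      rw [cst_add, toC_mul, toC_mul]
    have z0 : ∀ (S R : MC n) (k : ℕ), nrm S R κ k 0 = 0 := fun S R k => nrm_zero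
    refine ⟨Pr.mulVec x + Qr.mulVec y, ?_, ?_⟩
    · have e3 : P.mulVec (cst (x - (Pr.mulVec x + Qr.mulVec y))) = P.mulVec 0 := by
        rw [cst_sub, Matrix.mulVec_sub, e1, Matrix.mulVec_add, Matrix.mulVec_mulVec,
          Matrix.mulVec_mulVec, hPP, hPQ, Matrix.zero_mulVec, add_zero, sub_self, Matrix.mulVec_zero]
      show nrm (T' * P) P κ N' (cst (x - (Pr.mulVec x + Qr.mulVec y))) = 0
      rw [nrm_congr e3, z0]
    · have e3 : Q.mulVec (cst (y - (Pr.mulVec x + Qr.mulVec y))) = Q.mulVec 0 := by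
        rw [cst_sub, Matrix.mulVec_sub, e1, Matrix.mulVec_add, Matrix.mulVec_mulVec,
          Matrix.mulVec_mulVec, hQQ, hQP, Matrix.zero_mulVec, zero_add, sub_self, Matrix.mulVec_zero]
      show nrm (T * Q) Q κ N (cst (y - (Pr.mulVec x + Qr.mulVec y))) = 0
      rw [nrm_congr e3, z0]

end Pool.Agent.J6H77.CH32
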